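import Mathlib

/-!
Combinatorial core: a splitting of a maximal almost disjoint family of column-finite subsets of
`ℕ × ℕ` into two orthogonal parts, both of which trace on every positive subset of some positive set.
-/

set_option autoImplicit false

namespace Pool.Agent.MP_b3099b_gt.H24

open Set

/-- column `j` of a subset of the plane -/
def col (A : Set (ℕ × ℕ)) (j : ℕ) : Set ℕ := {m | (j, m) ∈ A}

/-- infinitely many infinite columns -/
def Pos (A : Set (ℕ × ℕ)) : Prop := {j | (col A j).Infinite}.Infinite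

/-- all columns finite -/
def CF (A : Set (ℕ × ℕ)) : Prop := ∀ j, (col A j).Finite

lemma col_mono {A B : Set (ℕ × ℕ)} (h : A ⊆ B) (j : ℕ) : col A j ⊆ col B j :=
  fun _ hm => h hm

/-- a column-finite set living in finitely many columns is finite -/
lemma finite_of_CF {D : Set (ℕ × ℕ)} (hD : CF D) {J : Set ℕ} (hJ : J.Finite)
    (h : ∀ p ∈ D, p.1 ∈ J) : D.Finite := by
  have : D ⊆ ⋃ j ∈ J, (fun m => (j, m)) '' col D j := by
    rintro ⟨j, m⟩ hp
    simp only [mem_iUnion, mem_image]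
    exact ⟨j, h _ hp, m, hp, rfl⟩
  exact (hJ.biUnion fun j _ => (hD j).image _).subset this

/-- a positive set minus a column-finite set contains an infinite column-finite set -/
lemma exists_graph {Z D : Set (ℕ × ℕ)} (hZ : Pos Z) (hD : CF D) :
    ∃ E : Set (ℕ × ℕ), E ⊆ Z ∧ Disjoint E D ∧ E.Infinite ∧ CF E := by
  classical
  have h1 : ∀ j, (col Z j).Infinite → ∃ m, (j, m) ∈ Z ∧ (j, m) ∉ D := by
    intro j hj
    obtain ⟨m, hm1, hm2⟩ := (hj.sdiff (hD j)).nonempty
    exact ⟨m, hm1, hm2⟩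
  choose! g hg using h1
  refine ⟨(fun j => (j, g j)) '' {j | (col Z j).Infinite}, ?_, ?_, ?_, ?_⟩
  · rintro _ ⟨j, hj, rfl⟩
    exact (hg j hj).1
  · rw [Set.disjoint_left]
    rintro _ ⟨j, hj, rfl⟩
    exact (hg j hj).2
  · refine hZ.image ?_
    intro a _ b _ hab
    exact (Prod.ext_iff.mp hab).1
  · intro j
    refine (Set.finite_singleton (g j)).subset ?_
    rintro m ⟨i, _, hi⟩
    have h1 := (Prod.ext_iff.mp hi).1
    have h2 := (Prod.ext_iff.mp hi).2
    simp only at h1 h2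
    subst h1
    exact h2.symm

/-- existence of a maximal almost disjoint family of infinite column-finite sets -/
lemma exists_mad : ∃ M : Set (Set (ℕ × ℕ)), (∀ D ∈ M, CF D) ∧
    (M.Pairwise fun A B => (A ∩ B).Finite) ∧
    ∀ E : Set (ℕ × ℕ), E.Infinite → CF E → ∃ D ∈ M, (D ∩ E).Infinite := by
  let S : Set (Set (Set (ℕ × ℕ))) :=
    {M | (∀ D ∈ M, D.Infinite ∧ CF D) ∧ M.Pairwise fun A B => (A ∩ B).Finite}
  have hz : ∀ c ⊆ S, IsChain (· ⊆ ·) c → ∃ ub ∈ S, ∀ s ∈ c, s ⊆ ub := by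
    intro c hc hch
    refine ⟨⋃₀ c, ⟨?_, ?_⟩, fun s hs => subset_sUnion_of_mem hs⟩
    · rintro D ⟨M, hM, hD⟩
      exact (hc hM).1 D hD
    · rintro A ⟨M, hM, hA⟩ B ⟨M', hM', hB⟩ hAB
      rcases hch.total hM hM' with h | h
      · exact (hc hM').2 (h hA) hB hAB
      · exact (hc hM).2 hA (h hB) hAB
  obtain ⟨M, hM⟩ := zorn_subset S hz
  refine ⟨M, fun D hD => (hM.prop.1 D hD).2, hM.prop.2, ?_⟩
  intro E hE hCF
  by_contra hcon
  push Not at hcon
  have hin : insert E M ∈ S := by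
    refine ⟨?_, ?_⟩
    · rintro D (rfl | hD)
      · exact ⟨hE, hCF⟩
      · exact hM.prop.1 D hD
    · refine Set.Pairwise.insert hM.prop.2 ?_
      intro B hB _
      have := hcon B hB
      exact ⟨by rwa [inter_comm], this⟩
  have hE' : E ∈ M := hM.mem_of_prop_insert hin
  have := hcon E hE'
  rw [inter_self] at this
  exact hE this

/-- the splitting lemma -/
lemma exists_split : ∃ X : Set (ℕ × ℕ), Pos X ∧ ∃ 𝒜 ℬ : Set (Set (ℕ × ℕ)),
    (∀ D ∈ 𝒜, CF D) ∧ (∀ A ∈ 𝒜, ∀ B ∈ ℬ, (A ∩ B).Finite) ∧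
    ∀ Z ⊆ X, Pos Z → (∃ A ∈ 𝒜, (A ∩ Z).Infinite) ∧ (∃ B ∈ ℬ, (B ∩ Z).Infinite) := by
  classical
  obtain ⟨M, hCF, hAD, hmax⟩ := exists_mad
  by_contra hcon
  -- one refinement step
  have step : ∀ (p : ℕ × ℕ) (X : Set (ℕ × ℕ)), Pos X →
      ∃ Z : Set (ℕ × ℕ), Z ⊆ X ∧ Pos Z ∧ ∃ b : Prop, ∀ D ∈ M, (D ∩ Z).Infinite → (p ∈ D ↔ b) := by
    intro p X hX
    by_contra h2
    apply hcon
    refine ⟨X, hX, {D ∈ M | p ∈ D}, {D ∈ M | p ∉ D}, fun D hD => hCF D hD.1, ?_, ?_⟩
    · rintro A ⟨hA, hpA⟩ B ⟨hB, hpB⟩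
      refine hAD hA hB ?_
      rintro rfl
      exact hpB hpA
    · intro Z hZX hZ
      constructor
      · by_contra h3
        apply h2
        refine ⟨Z, hZX, hZ, False, ?_⟩
        intro D hD hinf
        simp only [iff_false]
        intro hp
        exact h3 ⟨D, ⟨hD, hp⟩, hinf⟩
      · by_contra h3
        apply h2
        refine ⟨Z, hZX, hZ, True, ?_⟩
        intro D hD hinf
        simp only [iff_true]
        by_contra hp
        exact h3 ⟨D, ⟨hD, hp⟩, hinf⟩
  choose! nxt hsub hpos bb hbb using step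
  obtain ⟨e, he⟩ : ∃ e : ℕ → ℕ × ℕ, Function.Surjective e := exists_surjective_nat (ℕ × ℕ)
  let X : ℕ → Set (ℕ × ℕ) := fun n => Nat.rec univ (fun i Y => nxt (e i) Y) n
  have hXs : ∀ n, X (n + 1) = nxt (e n) (X n) := fun n => rfl
  have hX0 : Pos (X 0) := by
    have : {j | (col (univ : Set (ℕ × ℕ)) j).Infinite} = univ := by
      ext j
      simp only [mem_ofPred_eq, mem_univ, iff_true]
      have : col (univ : Set (ℕ × ℕ)) j = univ := by
        ext m; simp [col]
      rw [this]; exact infinite_univ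
    show {j | (col (univ : Set (ℕ × ℕ)) j).Infinite}.Infinite
    rw [this]; exact infinite_univ
  have hXpos : ∀ n, Pos (X n) := by
    intro n
    induction n with
    | zero => exact hX0
    | succ n ih => rw [hXs]; exact hpos _ _ ih
  have hXanti : Antitone X := by
    refine antitone_nat_of_succ_le fun n => ?_
    rw [hXs]; exact hsub _ _ (hXpos n)
  -- choose columns
  have hj : ∀ n, ∃ j, n ≤ j ∧ (col (X n) j).Infinite := by
    intro n
    obtain ⟨j, hj1, hj2⟩ := (hXpos n).exists_gt n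
    exact ⟨j, hj2.le, hj1⟩
  choose jj hjj1 hjj2 using hj
  let W : Set (ℕ × ℕ) := {p | ∃ n, p.1 = jj n ∧ p ∈ X n}
  have hWpos : Pos W := by
    refine Set.infinite_of_forall_exists_gt fun a => ?_
    refine ⟨jj (a + 1), ?_, hjj1 (a + 1)⟩
    refine (hjj2 (a + 1)).mono ?_
    intro m hm
    exact ⟨a + 1, rfl, hm⟩
  have hWX : ∀ D ∈ M, (D ∩ W).Infinite → ∀ n, (D ∩ X n).Infinite := by
    intro D hD hinf n hfin
    apply hinf
    have hrest : (D ∩ {p | p.1 ∈ jj '' (Iio n)}).Finite := by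
      refine finite_of_CF (J := jj '' (Iio n)) ?_ ((finite_Iio n).image _) fun p hp => hp.2
      intro j
      exact (hCF D hD j).subset (col_mono inter_subset_left j)
    refine (hfin.union hrest).subset ?_
    rintro p ⟨hpD, i, hi1, hi2⟩
    by_cases hin : i < n
    · right
      exact ⟨hpD, i, hin, hi1.symm⟩
    · left
      exact ⟨hpD, hXanti (not_lt.mp hin) hi2⟩
  have huniq : ∀ D ∈ M, (D ∩ W).Infinite → ∀ n, (e n ∈ D ↔ bb (e n) (X n)) := by
    intro D hD hinf n
    have := hWX D hD hinf (n + 1)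
    rw [hXs] at this
    exact hbb _ _ (hXpos n) D hD this
  -- first member of the family meeting `W`
  obtain ⟨E, hEW, -, hEinf, hECF⟩ := exists_graph (D := ∅) hWpos (fun j => by simp [col])
  obtain ⟨D, hD, hDE⟩ := hmax E hEinf hECF
  have hDW : (D ∩ W).Infinite := hDE.mono (inter_subset_inter_right _ hEW)
  obtain ⟨E', hEW', hdisj, hEinf', hECF'⟩ := exists_graph (D := D) hWpos (hCF D hD)
  obtain ⟨D', hD', hDE'⟩ := hmax E' hEinf' hECF'
  have hDW' : (D' ∩ W).Infinite := hDE'.mono (inter_subset_inter_right _ hEW')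
  have hDD : D' = D := by
    ext p
    obtain ⟨n, rfl⟩ := he p
    rw [huniq D hD hDW n, huniq D' hD' hDW' n]
  subst hDD
  obtain ⟨p, hp1, hp2⟩ := hDE'.nonempty
  exact Set.disjoint_left.mp hdisj hp2 hp1

end Pool.Agent.MP_b3099b_gt.H24
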