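import Mathlib
import Pool.Agent.MP_b3099b_gt.H24.Split

/-!
A countable Frechet T1 space that is not a closed continuous image of any space whose points have
countable decreasing open bases.
-/

set_option autoImplicit false

namespace Pool.Agent.MP_b3099b_gt.H24

open Set Filter Topology

/-- points of the example: a top point, a middle sequence, and the plane of isolated points -/
inductive Pt : Type
  | inf : Pt
  | mid : ℕ → Pt
  | low : ℕ × ℕ → Pt

instance : Countable Pt := by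
  let f : Pt → Option (ℕ ⊕ (ℕ × ℕ)) := fun y => match y with
    | Pt.inf => none
    | Pt.mid j => some (Sum.inl j)
    | Pt.low p => some (Sum.inr p)
  have hf : Function.Injective f := by
    intro a b hab
    cases a <;> cases b <;> simp_all [f]
  exact hf.countable

instance : Nonempty Pt := ⟨Pt.inf⟩

/-- the open sets of the example -/
def IsOp (X : Set (ℕ × ℕ)) (ℬ : Set (Set (ℕ × ℕ))) (U : Set Pt) : Prop :=
  (∀ j, Pt.mid j ∈ U → {m | (j, m) ∈ X ∧ Pt.low (j, m) ∉ U}.Finite) ∧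
  (Pt.inf ∈ U → {j | Pt.mid j ∉ U}.Finite ∧ ∀ B ∈ ℬ, {p | p ∈ B ∧ Pt.low p ∉ U}.Finite)

/-- the topology of the example -/
@[reducible] def topo (X : Set (ℕ × ℕ)) (ℬ : Set (Set (ℕ × ℕ))) : TopologicalSpace Pt where
  IsOpen := IsOp X ℬ
  isOpen_univ := by
    refine ⟨fun j _ => by simp, fun _ => ⟨by simp, fun B _ => by simp⟩⟩
  isOpen_inter := by
    rintro U V ⟨hU1, hU2⟩ ⟨hV1, hV2⟩
    refine ⟨fun j hj => ?_, fun h => ⟨?_, fun B hB => ?_⟩⟩
    · refine ((hU1 j hj.1).union (hV1 j hj.2)).subset ?_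
      rintro m ⟨hm1, hm2⟩
      by_cases h : Pt.low (j, m) ∈ U
      · right; exact ⟨hm1, fun h' => hm2 ⟨h, h'⟩⟩
      · left; exact ⟨hm1, h⟩
    · refine ((hU2 h.1).1.union (hV2 h.2).1).subset ?_
      intro j hj
      by_cases h : Pt.mid j ∈ U
      · right; exact fun h' => hj ⟨h, h'⟩
      · left; exact h
    · refine (((hU2 h.1).2 B hB).union ((hV2 h.2).2 B hB)).subset ?_
      rintro p ⟨hm1, hm2⟩
      by_cases h : Pt.low p ∈ U
      · right; exact ⟨hm1, fun h' => hm2 ⟨h, h'⟩⟩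
      · left; exact ⟨hm1, h⟩
  isOpen_sUnion := by
    intro S hS
    refine ⟨fun j hj => ?_, fun h => ?_⟩
    · obtain ⟨U, hU, hj⟩ := hj
      refine ((hS U hU).1 j hj).subset ?_
      rintro m ⟨hm1, hm2⟩
      exact ⟨hm1, fun h => hm2 ⟨U, hU, h⟩⟩
    · obtain ⟨U, hU, h⟩ := h
      refine ⟨(((hS U hU).2 h).1).subset ?_, fun B hB => (((hS U hU).2 h).2 B hB).subset ?_⟩
      · intro j hj h'
        exact hj ⟨U, hU, h'⟩
      · rintro p ⟨hm1, hm2⟩
        exact ⟨hm1, fun h' => hm2 ⟨U, hU, h'⟩⟩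

lemma topo_t1 (X : Set (ℕ × ℕ)) (ℬ : Set (Set (ℕ × ℕ))) : @T1Space Pt (topo X ℬ) := by
  let _ := topo X ℬ
  refine ⟨fun y => ?_⟩
  rw [← isOpen_compl_iff]
  show IsOp X ℬ {y}ᶜ
  refine ⟨fun j _ => ?_, fun _ => ⟨?_, fun B _ => ?_⟩⟩
  · refine Set.Subsingleton.finite ?_
    rintro a ⟨_, ha⟩ b ⟨_, hb⟩
    simp only [mem_compl_iff, mem_singleton_iff, not_not] at ha hb
    have := ha.trans hb.symm
    simpa using this
  · refine Set.Subsingleton.finite ?_
    rintro a ha b hb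
    simp only [mem_compl_iff, mem_singleton_iff, not_not, mem_ofPred_eq] at ha hb
    have := ha.trans hb.symm
    simpa using this
  · refine Set.Subsingleton.finite ?_
    rintro a ⟨_, ha⟩ b ⟨_, hb⟩
    simp only [mem_compl_iff, mem_singleton_iff, not_not] at ha hb
    have := ha.trans hb.symm
    simpa using this

/-- an infinite set almost contained in each open neighbourhood yields a convergent sequence -/
lemma mem_seqClosure_of_infinite {Y : Type} [TopologicalSpace Y] {s S : Set Y} {a : Y}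
    (hS : S.Infinite) (hSs : S ⊆ s) (h : ∀ U, IsOpen U → a ∈ U → (S \ U).Finite) :
    a ∈ seqClosure s := by
  refine ⟨fun n => (hS.natEmbedding S n : Y), fun n => hSs (hS.natEmbedding S n).2, ?_⟩
  rw [tendsto_nhds]
  intro U hU ha
  rw [← Nat.cofinite_eq_atTop, mem_cofinite]
  have hinj : Function.Injective (fun n => (hS.natEmbedding S n : Y)) :=
    Subtype.val_injective.comp (hS.natEmbedding S).injective
  refine ((h U hU ha).preimage hinj.injOn).subset ?_
  intro n hn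
  exact ⟨(hS.natEmbedding S n).2, hn⟩

lemma topo_frechet (X : Set (ℕ × ℕ)) (ℬ : Set (Set (ℕ × ℕ)))
    (hB : ∀ Z ⊆ X, Pos Z → ∃ B ∈ ℬ, (B ∩ Z).Infinite) :
    @FrechetUrysohnSpace Pt (topo X ℬ) := by
  let _ := topo X ℬ
  refine ⟨fun s a ha => ?_⟩
  by_cases has : a ∈ s
  · exact subset_seqClosure has
  rw [mem_closure_iff] at ha
  cases a with
  | low p =>
    exfalso
    have hop : IsOpen ({Pt.low p} : Set Pt) := by
      show IsOp X ℬ _
      exact ⟨fun j hj => by simp at hj, fun h => by simp at h⟩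
    obtain ⟨y, hy1, hy2⟩ := ha _ hop rfl
    rw [mem_singleton_iff] at hy1
    exact has (hy1 ▸ hy2)
  | mid j =>
    by_cases hfin : {m | (j, m) ∈ X ∧ Pt.low (j, m) ∈ s}.Finite
    · exfalso
      have hop : IsOpen ({Pt.mid j} ∪ {y | (∃ m, (j, m) ∈ X ∧ y = Pt.low (j, m)) ∧ y ∉ s}) := by
        show IsOp X ℬ _
        refine ⟨fun i hi => ?_, fun h => by simp at h⟩
        have hij : i = j := by simpa using hi
        subst hij
        refine hfin.subset ?_
        rintro m ⟨hm1, hm2⟩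
        refine ⟨hm1, ?_⟩
        by_contra h
        exact hm2 (Or.inr ⟨⟨m, hm1, rfl⟩, h⟩)
      obtain ⟨y, hy1, hy2⟩ := ha _ hop (Or.inl rfl)
      rcases hy1 with hy1 | hy1
      · rw [mem_singleton_iff] at hy1
        exact has (hy1 ▸ hy2)
      · exact hy1.2 hy2
    · refine mem_seqClosure_of_infinite
        (S := (fun m => Pt.low (j, m)) '' {m | (j, m) ∈ X ∧ Pt.low (j, m) ∈ s}) ?_ ?_ ?_
      · refine Set.Infinite.image ?_ hfin
        intro a _ b _ hab
        simpa using hab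
      · rintro _ ⟨m, hm, rfl⟩
        exact hm.2
      · intro U hU hj
        refine (((show IsOp X ℬ U from hU).1 j hj).image (fun m => Pt.low (j, m))).subset ?_
        rintro _ ⟨⟨m, hm, rfl⟩, hm2⟩
        exact ⟨m, ⟨hm.1, hm2⟩, rfl⟩
  | inf =>
    by_cases h1 : {j | Pt.mid j ∈ s}.Finite
    swap
    · refine mem_seqClosure_of_infinite (S := Pt.mid '' {j | Pt.mid j ∈ s}) ?_ ?_ ?_
      · refine Set.Infinite.image ?_ h1
        intro a _ b _ hab
        simpa using hab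
      · rintro _ ⟨m, hm, rfl⟩
        exact hm
      · intro U hU hj
        refine (((show IsOp X ℬ U from hU).2 hj).1.image Pt.mid).subset ?_
        rintro _ ⟨⟨m, _, rfl⟩, hm2⟩
        exact ⟨m, hm2, rfl⟩
    by_cases h2 : ∃ B ∈ ℬ, {p | p ∈ B ∧ Pt.low p ∈ s}.Infinite
    · obtain ⟨B, hBB, hinf⟩ := h2
      refine mem_seqClosure_of_infinite (S := Pt.low '' {p | p ∈ B ∧ Pt.low p ∈ s}) ?_ ?_ ?_
      · refine Set.Infinite.image ?_ hinf
        intro a _ b _ hab
        simpa using hab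
      · rintro _ ⟨m, hm, rfl⟩
        exact hm.2
      · intro U hU hj
        refine ((((show IsOp X ℬ U from hU).2 hj).2 B hBB).image Pt.low).subset ?_
        rintro _ ⟨⟨m, hm, rfl⟩, hm2⟩
        exact ⟨m, ⟨hm.1, hm2⟩, rfl⟩
    exfalso
    push Not at h2
    let Z : Set (ℕ × ℕ) := {p | p ∈ X ∧ Pt.low p ∈ s}
    have hZ : ¬ Pos Z := by
      intro hZ
      obtain ⟨B, hBB, hinf⟩ := hB Z (fun p hp => hp.1) hZ
      refine hinf ((h2 B hBB).subset ?_)
      rintro p ⟨hp1, hp2⟩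
      exact ⟨hp1, hp2.2⟩
    have hZ' : {j | (col Z j).Infinite}.Finite := not_infinite.mp hZ
    have hop : IsOpen (s ∪ Pt.mid '' {j | (col Z j).Infinite})ᶜ := by
      show IsOp X ℬ _
      refine ⟨fun j hj => ?_, fun _ => ⟨?_, fun B hBB => ?_⟩⟩
      · have hj' : (col Z j).Finite := by
          by_contra hc
          exact hj (Or.inr ⟨j, hc, rfl⟩)
        refine hj'.subset ?_
        rintro m ⟨hm1, hm2⟩
        simp only [mem_compl_iff, not_not] at hm2
        rcases hm2 with hm2 | ⟨i, _, hi⟩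
        · exact ⟨hm1, hm2⟩
        · simp at hi
      · refine (h1.union hZ').subset ?_
        intro j hj
        simp only [mem_compl_iff, not_not, mem_ofPred_eq] at hj
        rcases hj with hj | ⟨i, hi1, hi2⟩
        · left; exact hj
        · right
          have : i = j := by simpa using hi2
          exact this ▸ hi1
      · refine (h2 B hBB).subset ?_
        rintro p ⟨hp1, hp2⟩
        simp only [mem_compl_iff, not_not] at hp2
        rcases hp2 with hp2 | ⟨i, _, hi⟩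
        · exact ⟨hp1, hp2⟩
        · simp at hi
    have hinf : Pt.inf ∈ (s ∪ Pt.mid '' {j | (col Z j).Infinite})ᶜ := by
      rintro (h | ⟨i, _, hi⟩)
      · exact has h
      · simp at hi
    obtain ⟨y, hy1, hy2⟩ := ha _ hop hinf
    exact hy1 (Or.inl hy2)

/-- every countable T1 space is semistratifiable -/
lemma semistrat_of_countable (Y : Type) [TopologicalSpace Y] [T1Space Y] [Countable Y]
    [Nonempty Y] :
    ∃ G : Set Y → ℕ → Set Y,
      (∀ F : Set Y, IsClosed F → ∀ n, IsOpen (G F n)) ∧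
      (∀ F : Set Y, IsClosed F → ⋂ n, G F n = F) ∧
      (∀ F K : Set Y, IsClosed F → IsClosed K → F ⊆ K → ∀ n, G F n ⊆ G K n) := by
  obtain ⟨e, he⟩ := exists_surjective_nat Y
  refine ⟨fun F n => (e '' {i | i ≤ n ∧ e i ∉ F})ᶜ, ?_, ?_, ?_⟩
  · intro F _ n
    refine Set.Finite.isClosed ?_ |>.isOpen_compl
    exact ((finite_Iic n).subset fun i hi => hi.1).image _
  · intro F _
    ext y
    simp only [mem_iInter, mem_compl_iff]
    constructor
    · intro h
      obtain ⟨i, rfl⟩ := he y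
      by_contra hc
      exact h i ⟨i, ⟨le_rfl, hc⟩, rfl⟩
    · rintro h n ⟨i, hi, rfl⟩
      exact hi.2 h
  · intro F K _ _ hFK n y hy
    rintro ⟨i, hi, rfl⟩
    exact hy ⟨i, ⟨hi.1, fun h => hi.2 (hFK h)⟩, rfl⟩

/-- the example is not a closed image of a space with countable decreasing open point bases -/
lemma not_closed_image (X : Set (ℕ × ℕ)) (hX : Pos X) (𝒜 ℬ : Set (Set (ℕ × ℕ)))
    (hCF : ∀ D ∈ 𝒜, CF D) (horth : ∀ A ∈ 𝒜, ∀ B ∈ ℬ, (A ∩ B).Finite)
    (hA : ∀ Z ⊆ X, Pos Z → ∃ A ∈ 𝒜, (A ∩ Z).Infinite)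
    (W : Type) [TopologicalSpace W]
    (hW : ∀ x : W, ∃ N : ℕ → Set W, Antitone N ∧ (∀ n, IsOpen (N n) ∧ x ∈ N n) ∧
      ∀ V, IsOpen V → x ∈ V → ∃ n, N n ⊆ V)
    (f : W → Pt) (hf : @Continuous W Pt _ (topo X ℬ) f)
    (hcl : @IsClosedMap W Pt _ (topo X ℬ) f) (hsurj : Function.Surjective f) : False := by
  let _ := topo X ℬ
  have : T1Space Pt := topo_t1 X ℬ
  choose s hs using hsurj
  have : Nonempty W := ⟨s Pt.inf⟩
  -- lifts of the middle points
  have hmid : ∀ j, (col X j).Infinite →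
      ∃ x ∈ closure ((fun m => s (Pt.low (j, m))) '' col X j), f x = Pt.mid j := by
    intro j hj
    have h1 : Pt.mid j ∈ closure (f '' ((fun m => s (Pt.low (j, m))) '' col X j)) := by
      rw [mem_closure_iff]
      intro U hU hjU
      have hfin := (show IsOp X ℬ U from hU).1 j hjU
      obtain ⟨m, hm1, hm2⟩ := (hj.sdiff hfin).nonempty
      refine ⟨Pt.low (j, m), ?_, s (Pt.low (j, m)), ⟨m, hm1, rfl⟩, hs _⟩
      by_contra hc
      exact hm2 ⟨hm1, hc⟩
    exact hcl.closure_image_subset _ h1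
  choose! xx hxx1 hxx2 using hmid
  -- lift of the top point
  have hinf : ∃ x ∈ closure (xx '' {j | (col X j).Infinite}), f x = Pt.inf := by
    have h1 : Pt.inf ∈ closure (f '' (xx '' {j | (col X j).Infinite})) := by
      rw [mem_closure_iff]
      intro U hU hjU
      have hfin := ((show IsOp X ℬ U from hU).2 hjU).1
      obtain ⟨j, hj1, hj2⟩ := (Set.Infinite.sdiff hX hfin).nonempty
      refine ⟨Pt.mid j, ?_, xx j, ⟨j, hj1, rfl⟩, hxx2 j hj1⟩
      by_contra hc
      exact hj2 hc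
    exact hcl.closure_image_subset _ h1
  obtain ⟨x, hx1, hx2⟩ := hinf
  obtain ⟨N, hNanti, hNop, hNbase⟩ := hW x
  have hcol : ∀ n, ∃ j, n ≤ j ∧ (col X j).Infinite ∧ xx j ∈ N n := by
    intro n
    have hop : IsOpen (N n ∩ f ⁻¹' (Pt.mid '' Iio n)ᶜ) :=
      (hNop n).1.inter ((((finite_Iio n).image _).isClosed.isOpen_compl).preimage hf)
    have hxm : x ∈ N n ∩ f ⁻¹' (Pt.mid '' Iio n)ᶜ := by
      refine ⟨(hNop n).2, ?_⟩
      rw [mem_preimage, hx2]
      rintro ⟨i, _, hi⟩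
      simp at hi
    obtain ⟨_, ⟨hy1, hy2⟩, j, hj, rfl⟩ := mem_closure_iff.mp hx1 _ hop hxm
    refine ⟨j, ?_, hj, hy1⟩
    by_contra hc
    apply hy2
    exact ⟨j, not_le.mp hc, (hxx2 j hj).symm⟩
  choose jj hjj1 hjj2 hjj3 using hcol
  have hM : ∀ n, {m | (jj n, m) ∈ X ∧ s (Pt.low (jj n, m)) ∈ N n}.Infinite := by
    intro n hfin
    have hop : IsOpen (N n ∩ f ⁻¹' ((fun m => Pt.low (jj n, m)) ''
        {m | (jj n, m) ∈ X ∧ s (Pt.low (jj n, m)) ∈ N n})ᶜ) :=
      (hNop n).1.inter (((hfin.image _).isClosed.isOpen_compl).preimage hf)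
    have hxm : xx (jj n) ∈ N n ∩ f ⁻¹' ((fun m => Pt.low (jj n, m)) ''
        {m | (jj n, m) ∈ X ∧ s (Pt.low (jj n, m)) ∈ N n})ᶜ := by
      refine ⟨hjj3 n, ?_⟩
      rw [mem_preimage, hxx2 _ (hjj2 n)]
      rintro ⟨i, _, hi⟩
      simp at hi
    obtain ⟨_, ⟨hy1, hy2⟩, m, hm, rfl⟩ := mem_closure_iff.mp (hxx1 _ (hjj2 n)) _ hop hxm
    apply hy2
    exact ⟨m, ⟨hm, hy1⟩, (hs _).symm⟩
  let Z : Set (ℕ × ℕ) := {p | ∃ n, p.1 = jj n ∧ p ∈ X ∧ s (Pt.low p) ∈ N n}
  have hZX : Z ⊆ X := by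
    rintro p ⟨n, _, h, _⟩
    exact h
  have hZpos : Pos Z := by
    refine Set.infinite_of_forall_exists_gt fun a => ?_
    refine ⟨jj (a + 1), ?_, hjj1 (a + 1)⟩
    refine (hM (a + 1)).mono ?_
    intro m hm
    exact ⟨a + 1, rfl, hm.1, hm.2⟩
  obtain ⟨A, hAA, hAinf⟩ := hA Z hZX hZpos
  have hop : IsOpen (Pt.low '' (A ∩ Z))ᶜ := by
    show IsOp X ℬ _
    refine ⟨fun j _ => ?_, fun _ => ⟨?_, fun B hBB => ?_⟩⟩
    · refine (hCF A hAA j).subset ?_
      rintro m ⟨_, hm2⟩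
      simp only [mem_compl_iff, not_not] at hm2
      obtain ⟨p, hp, hp2⟩ := hm2
      have : p = (j, m) := by simpa using hp2
      subst this
      exact hp.1
    · refine Set.finite_empty.subset ?_
      intro j hj
      simp only [mem_compl_iff, not_not, mem_ofPred_eq] at hj
      obtain ⟨p, _, hp2⟩ := hj
      simp at hp2
    · refine (horth A hAA B hBB).subset ?_
      rintro q ⟨hq1, hq2⟩
      simp only [mem_compl_iff, not_not] at hq2
      obtain ⟨p, hp, hp2⟩ := hq2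
      have : p = q := by simpa using hp2
      subst this
      exact ⟨hp.1, hq1⟩
  have hxin : x ∈ f ⁻¹' (Pt.low '' (A ∩ Z))ᶜ := by
    rw [mem_preimage, hx2]
    rintro ⟨i, _, hi⟩
    simp at hi
  obtain ⟨n, hn⟩ := hNbase _ (hop.preimage hf) hxin
  apply hAinf
  refine finite_of_CF (J := jj '' Iio n) ?_ ((finite_Iio n).image _) ?_
  · intro j
    exact (hCF A hAA j).subset (col_mono inter_subset_left j)
  · rintro p ⟨hpA, i, hi1, hi2, hi3⟩
    by_cases hin : i < n
    · exact ⟨i, hin, hi1.symm⟩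
    · exfalso
      have := hn (hNanti (not_lt.mp hin) hi3)
      rw [mem_preimage, hs] at this
      exact this ⟨p, ⟨hpA, i, hi1, hi2, hi3⟩, rfl⟩

end Pool.Agent.MP_b3099b_gt.H24
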